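import Mathlib

/-!
# Middle coefficients in linear combinations of an ultrafilter

If `E` is an idempotent of `(βℕ, ⊕)` then `aE ⊕ aE ⊕ cE = aE ⊕ cE ⊕ cE`, and for `U = E ⊕ qE` one
has `U ⊕ qU ⊕ q³U = U ⊕ q²U ⊕ q³U`, both sides being `E ⊕ qE ⊕ q²E ⊕ q³E ⊕ q⁴E`.
-/

set_option autoImplicit false

namespace Pool.Agent.Results.MP_f00063_lc.MiddleCoefficients

open Filter

attribute [local instance] Ultrafilter.add Ultrafilter.addSemigroup

/-- The sum `U ⊕ V` of two ultrafilters on the positive integers (see `mem_osum`). -/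
def osum (U V : Ultrafilter ℕ+) : Ultrafilter ℕ+ := U + V

/-- `A ∈ U ⊕ V` if and only if `{m : {n : m + n ∈ A} ∈ V} ∈ U`. -/
theorem mem_osum (U V : Ultrafilter ℕ+) (A : Set ℕ+) :
    A ∈ osum U V ↔ {m : ℕ+ | {n : ℕ+ | m + n ∈ A} ∈ V} ∈ U :=
  Iff.rfl

/-- `aU`, the image of the ultrafilter `U` under `n ↦ a n`. -/
def scale (a : ℕ+) (U : Ultrafilter ℕ+) : Ultrafilter ℕ+ := U.map (fun n => a * n)

theorem mem_scale (a : ℕ+) (U : Ultrafilter ℕ+) (A : Set ℕ+) :
    A ∈ scale a U ↔ {n : ℕ+ | a * n ∈ A} ∈ U :=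
  Iff.rfl

theorem ext' {U V : Ultrafilter ℕ+} (h : ∀ A : Set ℕ+, A ∈ U ↔ A ∈ V) : U = V :=
  Ultrafilter.ext h

theorem osum_assoc (U V W : Ultrafilter ℕ+) : osum (osum U V) W = osum U (osum V W) :=
  add_assoc U V W

theorem scale_osum (a : ℕ+) (U V : Ultrafilter ℕ+) :
    scale a (osum U V) = osum (scale a U) (scale a V) := by
  refine ext' fun A => ?_
  simp only [mem_scale, mem_osum, Set.mem_ofPred_eq, mul_add]

theorem scale_scale (a b : ℕ+) (U : Ultrafilter ℕ+) : scale a (scale b U) = scale (a * b) U := by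
  refine ext' fun A => ?_
  simp only [mem_scale, Set.mem_ofPred_eq, mul_assoc]

/-- `U` is nonprincipal. -/
def Nonprincipal (U : Ultrafilter ℕ+) : Prop := ∀ n : ℕ+, {n} ∉ U

theorem nonprincipal_osum (U V : Ultrafilter ℕ+) (hV : Nonprincipal V) :
    Nonprincipal (osum U V) := by
  intro n hn
  rw [mem_osum] at hn
  obtain ⟨m, hm⟩ := U.nonempty_of_mem hn
  by_cases hmn : m < n
  · refine hV (n - m) (mem_of_superset hm fun k hk => ?_)
    have h1 : m + k = n := hk
    have h2 : m + (n - m) = n := PNat.add_sub_of_lt hmn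
    exact add_left_cancel (h1.trans h2.symm)
  · obtain ⟨k, hk⟩ := V.nonempty_of_mem hm
    have h1 : m + k = n := hk
    exact hmn (h1 ▸ PNat.lt_add_right m k)

theorem exists_idem : ∃ E : Ultrafilter ℕ+, osum E E = E ∧ Nonprincipal E := by
  obtain ⟨E, hE⟩ := exists_idempotent_of_compact_t2_of_continuous_add_left
    (M := Ultrafilter ℕ+) (fun V => Ultrafilter.continuous_add_left V)
  have hE' : osum E E = E := hE
  refine ⟨E, hE', fun n hn => ?_⟩
  have h1 : {n} ∈ osum E E := by rw [hE']; exact hn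
  rw [mem_osum] at h1
  obtain ⟨m, hm, hm'⟩ := E.nonempty_of_mem (E.inter_mem hn h1)
  obtain ⟨k, hk, hk'⟩ := E.nonempty_of_mem (E.inter_mem hn hm')
  have h2 : m = n := hm
  have h3 : k = n := hk
  have h4 : m + k = n := hk'
  rw [h2, h3] at h4
  exact (PNat.lt_add_right n n).ne' h4

/-- **Main theorem.** The equality `aU ⊕ bU ⊕ cU = aU ⊕ b'U ⊕ cU` does not imply `b = b'`.
(1) For every idempotent `U` and all `a, c` the coefficients `b = a`, `b' = c` satisfy it.
(2) For every `q` there is a nonprincipal `U` with `U ⊕ qU ⊕ q³U = U ⊕ q²U ⊕ q³U`. For `q ≥ 2`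
the numbers `a = 1`, `b = q`, `b' = q²`, `c = q³` are different.
(3) In particular there are a nonprincipal `U` and `a, b, b', c` with `b ≠ b'` satisfying it. -/
theorem result :
    (∃ U : Ultrafilter ℕ+, Nonprincipal U ∧ osum U U = U) ∧
    (∀ U : Ultrafilter ℕ+, osum U U = U → ∀ a c : ℕ+,
      osum (osum (scale a U) (scale a U)) (scale c U)
        = osum (osum (scale a U) (scale c U)) (scale c U)) ∧
    (∀ q : ℕ+, ∃ U : Ultrafilter ℕ+, Nonprincipal U ∧
      osum (osum (scale 1 U) (scale q U)) (scale (q ^ 3) U)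
        = osum (osum (scale 1 U) (scale (q ^ 2) U)) (scale (q ^ 3) U)) ∧
    (∃ (U : Ultrafilter ℕ+) (a b b' c : ℕ+), Nonprincipal U ∧ b ≠ b' ∧ b ≠ a ∧ b ≠ c ∧ b' ≠ a ∧
      b' ≠ c ∧ osum (osum (scale a U) (scale b U)) (scale c U)
        = osum (osum (scale a U) (scale b' U)) (scale c U)) := by
  have key : ∀ q : ℕ+, ∃ U : Ultrafilter ℕ+, Nonprincipal U ∧
      osum (osum (scale 1 U) (scale q U)) (scale (q ^ 3) U)
        = osum (osum (scale 1 U) (scale (q ^ 2) U)) (scale (q ^ 3) U) := by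
    intro q
    obtain ⟨E, hE, hE'⟩ := exists_idem
    have hs : ∀ a, osum (scale a E) (scale a E) = scale a E := fun a => by
      rw [← scale_osum, hE]
    have hs' : ∀ a W, osum (scale a E) (osum (scale a E) W) = osum (scale a E) W := fun a W => by
      rw [← osum_assoc, hs]
    refine ⟨osum E (scale q E), nonprincipal_osum _ _ ?_, ?_⟩
    · intro n hn
      obtain ⟨m, hm⟩ := E.nonempty_of_mem hn
      refine hE' m (mem_of_superset hn fun k hk => ?_)
      have h1 : q * k = n := hk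
      have h2 : q * m = n := hm
      exact mul_left_cancel (h1.trans h2.symm)
    · have e1 : scale q (scale q E) = scale (q ^ 2) E := by rw [scale_scale, pow_two]
      have e2 : scale (q ^ 2) (scale q E) = scale (q ^ 3) E := by
        rw [scale_scale, ← pow_succ]
      have e3 : scale (q ^ 3) (scale q E) = scale (q ^ 4) E := by
        rw [scale_scale, ← pow_succ]
      have e0 : scale 1 E = E := ext' fun A => by simp [mem_scale]
      have e0' : scale 1 (scale q E) = scale q E := by rw [scale_scale, one_mul]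
      simp only [scale_osum, e0, e0', e1, e2, e3, osum_assoc, hs']
  refine ⟨?_, fun U hU a c => ?_, key, ?_⟩
  · obtain ⟨E, h1, h2⟩ := exists_idem
    exact ⟨E, h2, h1⟩
  · have hs : ∀ a, osum (scale a U) (scale a U) = scale a U := fun a => by
      rw [← scale_osum, hU]
    rw [hs, osum_assoc, hs]
  · obtain ⟨U, h1, h2⟩ := key 2
    exact ⟨U, 1, 2, 2 ^ 2, 2 ^ 3, h1, by decide, by decide, by decide, by decide, by decide, h2⟩

end Pool.Agent.Results.MP_f00063_lc.MiddleCoefficients
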